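import Pool.Agent.H183.PO.Stm
import Pool.Graph.R_pool_sql_team_seeded_707910d6.T2H18.PO.Gal2

/-!
# An automorphism fixing `α` and negating a root of unity of order `2 ^ (s + 1)`
-/

set_option autoImplicit false

namespace Pool.Agent.H183.PO

open Polynomial Filter Topology Pool.Agent.H771R2.Dens Pool.Agent.H183.SQ

namespace AUT

theorem five_pow (m : ℕ) : ∃ c : ℕ, 5 ^ 2 ^ m = 1 + 2 ^ (m + 2) * (2 * c + 1) := by
  induction m with
  | zero => exact ⟨0, by norm_num⟩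
  | succ m ih =>
    obtain ⟨c, hc⟩ := ih
    refine ⟨c + 2 ^ m * (2 * c + 1) ^ 2, ?_⟩
    rw [pow_succ 2 m, pow_mul, hc]
    ring

theorem fix_pow {A : Type} [Field A] [Algebra ℚ A] (σ : Gal(A/ℚ)) (α : A) (h : σ α = α)
    (n : ℕ) : (σ ^ n) α = α := by
  induction n with
  | zero => simp
  | succ n ih => rw [pow_succ, AlgEquiv.mul_apply, h, ih]

theorem neg_pow {A : Type} [Field A] [Algebra ℚ A] (σ : Gal(A/ℚ)) (ζ : A) (h : σ ζ = -ζ)
    (n : ℕ) : (σ ^ n) ζ = (-1) ^ n * ζ := by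
  induction n with
  | zero => simp
  | succ n ih =>
    rw [pow_succ, AlgEquiv.mul_apply, h, map_neg, ih]
    ring

end AUT

theorem t_AUT : S_AUT := by
  intro A _ _ _ _ α
  refine ⟨(minpoly ℚ α).natDegree + 2, fun s hs ζ hζ => ?_⟩
  obtain ⟨τ, hτ⟩ := Pool.Agent.T2H18.PO.ex_tau hζ
  obtain ⟨j, hj1, hjd, hj⟩ := Pool.Agent.T2H18.PO.ex_pow τ α
  obtain ⟨a, b, hb, hab⟩ := Nat.exists_eq_two_pow_mul_odd (by omega : j ≠ 0)
  have ha : a < 2 ^ a := Nat.lt_two_pow_self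
  have hale : 2 ^ a ≤ j := by
    rw [hab]
    exact Nat.le_mul_of_pos_right _ hb.pos
  obtain ⟨m, rfl⟩ : ∃ m, s = m + 2 := ⟨s - 2, by omega⟩
  have ham : a ≤ m := by omega
  have hm1 : ζ ^ 2 ^ (m + 2) = -1 := by
    have h1 : IsPrimitiveRoot (ζ ^ 2 ^ (m + 2)) 2 :=
      hζ.pow (by positivity) (by rw [pow_succ 2 (m + 2)])
    exact h1.eq_neg_one_of_two_right
  obtain ⟨c, hc⟩ := AUT.five_pow m
  have ht : (τ ^ 2 ^ m) ζ = -ζ := by
    rw [Pool.Agent.T2H18.PO.pow_tau hζ hτ, hc, pow_add, pow_one, pow_mul, hm1,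
      Odd.neg_one_pow ⟨c, rfl⟩]
    ring
  have hκ : (τ ^ j) ^ 2 ^ (m - a) = (τ ^ 2 ^ m) ^ b := by
    rw [← pow_mul, ← pow_mul, hab]
    congr 1
    have : 2 ^ m = 2 ^ a * 2 ^ (m - a) := by
      rw [← pow_add]
      congr 1
      omega
    rw [this]
    ring
  refine ⟨(τ ^ j) ^ 2 ^ (m - a), AUT.fix_pow _ _ hj _, ?_⟩
  rw [hκ, AUT.neg_pow _ _ ht, hb.neg_one_pow]
  ring

end Pool.Agent.H183.PO
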