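import Pool.Agent.H183.PO.Stm

/-! # A big set of primes stays big without the primes at most `B` (helper163) -/

set_option autoImplicit false

namespace Pool.Agent.H183.PO

open Polynomial Filter Topology Pool.Agent.H771R2.Dens Pool.Agent.H183.SQ

theorem t_BIGD : S_BIGD := by
  intro P B hP C
  obtain ⟨F, hF, hsum⟩ := hP (C + ((B : ℝ) + 1))
  refine ⟨F.filter (fun q => B < q), ?_, ?_⟩
  · intro p hp
    have h := Finset.mem_filter.1 hp
    exact ⟨(hF p h.1).1, (hF p h.1).2, h.2⟩
  · have h1 := Finset.sum_filter_add_sum_filter_not F (fun q => B < q) (fun p : ℕ => 1 / (p : ℝ))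
    have h2 : ∑ p ∈ F.filter (fun q => ¬ B < q), 1 / (p : ℝ) ≤ (B : ℝ) + 1 := by
      calc ∑ p ∈ F.filter (fun q => ¬ B < q), 1 / (p : ℝ)
          ≤ ∑ _p ∈ F.filter (fun q => ¬ B < q), (1 : ℝ) := by
            refine Finset.sum_le_sum fun p hp => ?_
            have h3 : 1 ≤ p := (hF p (Finset.mem_filter.1 hp).1).1.one_lt.le
            have h4 : (1 : ℝ) ≤ p := by exact_mod_cast h3
            rw [div_le_one (by linarith)]
            exact h4
        _ ≤ ∑ _p ∈ Finset.range (B + 1), (1 : ℝ) := by
            refine Finset.sum_le_sum_of_subset_of_nonneg ?_ fun _ _ _ => zero_le_one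
            intro p hp
            have h3 := (Finset.mem_filter.1 hp).2
            rw [Finset.mem_range]
            omega
        _ = (B : ℝ) + 1 := by
            rw [Finset.sum_const, Finset.card_range, nsmul_eq_mul, mul_one]
            push_cast
            ring
    linarith

end Pool.Agent.H183.PO
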