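import Pool.Agent.H183.PO.Stm

/-!
# Project PO (helper183), part GAUSS (helper231): an integral polynomial which is a square over the
rational numbers is a square over the integers
-/

set_option autoImplicit false
set_option linter.all false

namespace Pool.Agent.H183.PO

open Polynomial

/-- **S_GAUSS.** -/
theorem t_GAUSS : S_GAUSS := by
  rintro f ⟨g, hg⟩
  obtain ⟨b, hb⟩ := IsLocalization.integerNormalization_map_to_map (nonZeroDivisors ℤ) g
  generalize IsLocalization.integerNormalization (nonZeroDivisors ℤ) g = G at hb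
  have hb0 : (b : ℤ) ≠ 0 := nonZeroDivisors.ne_zero b.2
  generalize (b : ℤ) = d at hb hb0
  have hC : (C d : ℤ[X]) ≠ 0 := by
    rw [Ne, C_eq_zero]
    exact hb0
  have e1 : G.map (Int.castRingHom ℚ) = C (d : ℚ) * g := by
    have e2 : algebraMap ℤ ℚ = Int.castRingHom ℚ := rfl
    rw [← e2, hb, ← Int.cast_smul_eq_zsmul ℚ, smul_eq_C_mul]
  have h1 : (C d) ^ 2 * f = G ^ 2 := by
    apply Polynomial.map_injective (Int.castRingHom ℚ) Int.cast_injective
    rw [Polynomial.map_mul, Polynomial.map_pow, Polynomial.map_pow, map_C, hg, e1, mul_pow]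
    rfl
  have h2 : C d ∣ G := by
    have h3 : (C d) ^ 2 ∣ G ^ 2 := ⟨f, h1.symm⟩
    exact (IsIntegrallyClosed.pow_dvd_pow_iff two_ne_zero).1 h3
  obtain ⟨h, rfl⟩ := h2
  refine ⟨h, ?_⟩
  rw [mul_pow] at h1
  exact mul_left_cancel₀ (pow_ne_zero 2 hC) h1

end Pool.Agent.H183.PO
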