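import Pool.Agent.H183.PO.Stm

/-!
# Project PO, task JOIN: density zero from density zero in classes modulo a big set of primes
-/

set_option autoImplicit false

namespace Pool.Agent.H183.PO

open Polynomial Filter Topology Pool.Agent.H771R2.Dens Pool.Agent.H183.SQ

namespace JOIN

theorem cnt_ex (F : Finset ℕ) (p : ℕ → ℕ → Prop) (N : ℕ) :
    cnt (fun n => ∃ q ∈ F, p q n) N ≤ ∑ q ∈ F, cnt (p q) N := by
  induction F using Finset.induction_on with
  | empty =>
    have h := cnt_le_card (p := fun n => ∃ q ∈ (∅ : Finset ℕ), p q n) (N := N) (s := ∅)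
      (fun n _ h => by
        obtain ⟨q, hq, -⟩ := h
        exact absurd hq (Finset.notMem_empty q))
    rw [Finset.card_empty] at h
    exact h.trans (Nat.zero_le _)
  | insert a F ha ih =>
    rw [Finset.sum_insert ha]
    refine le_trans (cnt_mono (p' := fun n => p a n ∨ ∃ q ∈ F, p q n) ?_ N)
      ((cnt_or _ _ N).trans (Nat.add_le_add_left ih _))
    rintro n ⟨q, hq, h⟩
    rcases Finset.mem_insert.1 hq with rfl | hq
    · exact Or.inl h
    · exact Or.inr ⟨q, hq, h⟩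

end JOIN

theorem t_JOIN : S_JOIN := by
  intro S Q c hQ hq0
  rw [Metric.tendsto_atTop]
  intro ε hε
  obtain ⟨F, hF, hFε⟩ := exists_exp_small hQ (ε := ε / 4) (by positivity)
  have hA : Per (fun n => ∀ q ∈ F, n % q ≠ c q % q) (∏ q ∈ F, q)
      (∏ q ∈ F, Real.exp (-(1 / (q : ℝ)))) :=
    Per.forall F (fun q n => n % q ≠ c q % q) (fun q => q) _
      (fun q hq => per_ne (hF q hq).1.pos _) (fun q _ => (Real.exp_pos _).le)
      (fun q hq q' hq' h => (Nat.coprime_primes (hF q hq).1 (hF q' hq').1).2 h)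
  have hA' : (∏ q ∈ F, Real.exp (-(1 / (q : ℝ)))) ≤ ε / 4 := by
    rw [← Real.exp_sum, Finset.sum_neg_distrib]
    refine le_trans ?_ hFε
    rw [Real.exp_le_exp]
    have : 0 ≤ ∑ q ∈ F, 1 / (q : ℝ) := Finset.sum_nonneg fun q _ => by positivity
    linarith
  have hsum : Tendsto (fun N : ℕ => ∑ q ∈ F, (cnt (fun n => S n ∧ n % q = c q % q) N : ℝ) / N)
      atTop (𝓝 0) := by
    have h := tendsto_finsetSum (s := F) (x := (atTop : Filter ℕ)) (a := fun _ => (0 : ℝ))
      (fun q hq' => hq0 q (hF q hq').1 (hF q hq').2)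
    rw [Finset.sum_const_zero] at h
    exact h
  have hKt : Tendsto (fun N : ℕ => ((∏ q ∈ F, q : ℕ) : ℝ) / N) atTop (𝓝 0) :=
    tendsto_const_div_atTop_nhds_zero_nat _
  have h1 : ∀ᶠ N : ℕ in atTop,
      ∑ q ∈ F, (cnt (fun n => S n ∧ n % q = c q % q) N : ℝ) / N < ε / 4 :=
    hsum.eventually_lt_const (by positivity)
  have h2 : ∀ᶠ N : ℕ in atTop, ((∏ q ∈ F, q : ℕ) : ℝ) / N < ε / 4 :=
    hKt.eventually_lt_const (by positivity)
  obtain ⟨N0, hN0⟩ := Filter.eventually_atTop.1 (h1.and h2)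
  refine ⟨N0 + 1, fun N hN => ?_⟩
  obtain ⟨h3, h4⟩ := hN0 N (by omega)
  have hNpos : (0 : ℝ) < N := by
    have : 0 < N := by omega
    exact_mod_cast this
  have key : cnt S N ≤ cnt (fun n => ∀ q ∈ F, n % q ≠ c q % q) N +
      ∑ q ∈ F, cnt (fun n => S n ∧ n % q = c q % q) N := by
    refine le_trans (cnt_mono (p' := fun n => (∀ q ∈ F, n % q ≠ c q % q) ∨
      ∃ q ∈ F, (S n ∧ n % q = c q % q)) ?_ N)
      ((cnt_or _ _ N).trans (Nat.add_le_add_left
        (JOIN.cnt_ex F (fun q n => S n ∧ n % q = c q % q) N) _))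
    intro n hn
    by_cases h : ∀ q ∈ F, n % q ≠ c q % q
    · exact Or.inl h
    · right
      by_contra h5
      apply h
      intro q hq h6
      exact h5 ⟨q, hq, hn, h6⟩
  have key2 : (cnt S N : ℝ) ≤ (cnt (fun n => ∀ q ∈ F, n % q ≠ c q % q) N : ℝ) +
      ∑ q ∈ F, (cnt (fun n => S n ∧ n % q = c q % q) N : ℝ) := by
    exact_mod_cast key
  have h5 := hA.count N
  have h6 := mul_le_mul_of_nonneg_right hA' (Nat.cast_nonneg (α := ℝ) N)
  rw [← Finset.sum_div, div_lt_iff₀ hNpos] at h3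
  rw [div_lt_iff₀ hNpos] at h4
  rw [Real.dist_eq, sub_zero, abs_of_nonneg (by positivity), div_lt_iff₀ hNpos]
  nlinarith

end Pool.Agent.H183.PO
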