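import Pool.Agent.H183.PO.Stm

/-! # PO NEG (helper200, for helper183): `p ^ j = -1` modulo `w₁ w₂` -/

set_option autoImplicit false

namespace Pool.Agent.H183.PO

namespace NEG

theorem half {s w : ℕ} (hs : 1 ≤ s) (h : TwoExact s w) : ∃ k : ℕ, w / 2 = 2 ^ (s - 1) * (2 * k + 1) := by
  refine ⟨w / 2 ^ (s + 1), ?_⟩
  have h1 := Nat.div_add_mod w (2 ^ (s + 1))
  unfold TwoExact at h
  rw [h] at h1
  obtain ⟨r, rfl⟩ : ∃ r, s = r + 1 := ⟨s - 1, by omega⟩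
  rw [Nat.add_sub_cancel]
  have h2 : 2 ^ (r + 1 + 1) * (w / 2 ^ (r + 1 + 1)) + (2 ^ (r + 1) + 1) =
      2 * (2 ^ r * (2 * (w / 2 ^ (r + 1 + 1)) + 1)) + 1 := by ring
  rw [h2] at h1
  omega

theorem one {p w s : ℕ} {k k' : ℕ} (h1 : w / 2 = 2 ^ (s - 1) * (2 * k + 1))
    (hp : (p : ZMod w) ^ (w / 2) = -1) :
    w ∣ p ^ (2 ^ (s - 1) * (2 * k + 1) * (2 * k' + 1)) + 1 := by
  rw [← ZMod.natCast_eq_zero_iff]
  push_cast
  rw [pow_mul, ← h1, hp, Odd.neg_one_pow ⟨k', rfl⟩]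
  ring

end NEG

open NEG in
theorem t_NEG : S_NEG := by
  intro p w₁ w₂ s hw₁ hw₂ hne hs h1 h2 hp1 hp2
  obtain ⟨k, hk⟩ := half hs h1
  obtain ⟨k', hk'⟩ := half hs h2
  refine ⟨2 ^ (s - 1) * (2 * k + 1) * (2 * k' + 1), ?_⟩
  refine Nat.Coprime.mul_dvd_of_dvd_of_dvd ((Nat.coprime_primes hw₁ hw₂).2 hne)
    (one hk hp1) ?_
  have h3 := one (k' := k) hk' hp2
  have h4 : 2 ^ (s - 1) * (2 * k + 1) * (2 * k' + 1) = 2 ^ (s - 1) * (2 * k' + 1) * (2 * k + 1) := by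
    ring
  rw [h4]
  exact h3

end Pool.Agent.H183.PO
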