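import Pool.Agent.H183.PO.Stm

/-!
# S_PER: periodic density of the `t` with `r` not dividing `g(t)`
-/

set_option autoImplicit false

namespace Pool.Agent.H183.PO

open Polynomial Filter Topology Pool.Agent.H771R2.Dens Pool.Agent.H183.SQ

namespace PER

theorem dvd_add {g : ℤ[X]} {r : ℕ} {n m : ℕ} (h : (r : ℤ) ∣ (n : ℤ) - m) :
    (r : ℤ) ∣ g.eval (n : ℤ) ↔ (r : ℤ) ∣ g.eval (m : ℤ) := by
  have h1 : (r : ℤ) ∣ g.eval (n : ℤ) - g.eval (m : ℤ) :=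
    h.trans (Polynomial.sub_dvd_eval_sub _ _ g)
  exact (dvd_iff_dvd_of_dvd_sub h1)

theorem per_r (g : ℤ[X]) (r : ℕ) (n : ℕ) :
    (¬ (r : ℤ) ∣ g.eval ((n + r : ℕ) : ℤ)) ↔ ¬ (r : ℤ) ∣ g.eval (n : ℤ) := by
  rw [dvd_add]
  push_cast
  rw [add_sub_cancel_left]

end PER

theorem t_PER : S_PER := by
  intro g r hr ha
  obtain ⟨a, ha⟩ := ha
  have hr0 : 0 < r := hr.pos
  have hrR : (0 : ℝ) < r := by exact_mod_cast hr0
  have hper : ∀ n : ℕ, (fun t : ℕ => ¬ (r : ℤ) ∣ g.eval (t : ℤ)) (n + r) ↔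
      (fun t : ℕ => ¬ (r : ℤ) ∣ g.eval (t : ℤ)) n := fun n => PER.per_r g r n
  have hsq : r ^ 2 = r * r := by ring
  refine ⟨by positivity, ?_, ?_⟩
  · intro n
    show (¬ (r : ℤ) ∣ g.eval ((n + r ^ 2 : ℕ) : ℤ)) ↔ ¬ (r : ℤ) ∣ g.eval (n : ℤ)
    rw [PER.dvd_add]
    push_cast
    rw [add_sub_cancel_left, sq]
    exact dvd_mul_right _ _
  · have hcnt : cnt (fun t : ℕ => ¬ (r : ℤ) ∣ g.eval (t : ℤ)) r ≤ r - 1 := by
      have h1 : cnt (fun t : ℕ => ¬ (r : ℤ) ∣ g.eval (t : ℤ)) r ≤ ((Finset.range r).erase (a % r)).card := by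
        apply cnt_le_card
        intro n hn hp
        rw [Finset.mem_erase, Finset.mem_range]
        refine ⟨?_, hn⟩
        rintro rfl
        apply hp
        rw [PER.dvd_add (m := a)]
        · exact ha
        · have := Nat.mod_add_div a r
          have h2 : ((a % r : ℕ) : ℤ) - a = (r : ℤ) * (-((a / r : ℕ) : ℤ)) := by
            have h3 : ((a % r : ℕ) : ℤ) + (r : ℤ) * ((a / r : ℕ) : ℤ) = a := by exact_mod_cast this
            linear_combination h3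
          rw [h2]
          exact dvd_mul_right _ _
      rw [Finset.card_erase_of_mem (Finset.mem_range.2 (Nat.mod_lt _ hr0)), Finset.card_range] at h1
      exact h1
    have hc2 : cnt (fun t : ℕ => ¬ (r : ℤ) ∣ g.eval (t : ℤ)) (r ^ 2) =
        r * cnt (fun t : ℕ => ¬ (r : ℤ) ∣ g.eval (t : ℤ)) r := by
      rw [hsq]
      exact cnt_add hper r
    rw [hc2]
    have h3 : (cnt (fun t : ℕ => ¬ (r : ℤ) ∣ g.eval (t : ℤ)) r : ℝ) ≤ r - 1 := by
      have h4 : ((r - 1 : ℕ) : ℝ) = (r : ℝ) - 1 := by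
        rw [Nat.cast_sub hr0]; norm_num
      rw [← h4]
      exact_mod_cast hcnt
    have h5 : 1 - 1 / (2 * (r : ℝ)) ≤ Real.exp (-(1 / (2 * (r : ℝ)))) := by
      have := Real.add_one_le_exp (-(1 / (2 * (r : ℝ))))
      linarith
    push_cast
    have h6 : (r : ℝ) * (cnt (fun t : ℕ => ¬ (r : ℤ) ∣ g.eval (t : ℤ)) r : ℝ) ≤ r * (r - 1) :=
      mul_le_mul_of_nonneg_left h3 hrR.le
    have h7 : (1 - 1 / (2 * (r : ℝ))) * (r : ℝ) ^ 2 ≤ Real.exp (-(1 / (2 * (r : ℝ)))) * (r : ℝ) ^ 2 :=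
      mul_le_mul_of_nonneg_right h5 (by positivity)
    have h8 : (1 - 1 / (2 * (r : ℝ))) * (r : ℝ) ^ 2 = (r : ℝ) ^ 2 - r / 2 := by
      field_simp
    nlinarith

end Pool.Agent.H183.PO
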