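import Pool.Agent.H183.PO.Stm
import Pool.Graph.R_pool_sql_team_seeded_707910d6.T2H18.PO.Gal2

/-!
# Project PO of helper183, part QS: primes with a given exact power of two and a root of a polynomial
-/

set_option autoImplicit false

namespace Pool.Agent.H183.PO

open Polynomial IntermediateField NumberField Pool.Agent.H771R2.Dens

namespace QS

/-- an integral element of `L` with a given power -/
theorem mk {A : Type} [Field A] [CharZero A] [Algebra ℚ A] (L : IntermediateField ℚ A)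
    [NumberField L] (x : A) (hx : x ∈ L) (m : ℕ) (c : ℤ) (hm : m ≠ 0) (hxm : x ^ m = (c : A)) :
    ∃ z : 𝓞 L, ((z : L) : A) = x ∧ z ^ m = (c : 𝓞 L) := by
  have h2 : (⟨x, hx⟩ : L) ^ m = (c : L) := by
    apply Subtype.ext
    push_cast
    exact hxm
  have hsint : IsIntegral ℤ (⟨x, hx⟩ : L) := by
    apply IsIntegral.of_pow (n := m) (Nat.pos_of_ne_zero hm)
    rw [h2]
    exact isIntegral_algebraMap (R := ℤ) (x := c)
  refine ⟨⟨⟨x, hx⟩, hsint⟩, rfl, ?_⟩
  apply RingOfIntegers.coe_injective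
  rw [map_pow, map_intCast]
  exact h2

/-- the arithmetic of the order -/
theorem twoExact_of {R : Type} [CommRing R] [IsDomain R] (hne : (-1 : R) ≠ 1) {z : R} {s q : ℕ}
    (hs : 1 ≤ s) (hq : 1 ≤ q) (h1 : z ^ 2 ^ s = -1) (h2 : z ^ q = -z) : TwoExact s q := by
  have hz0 : z ≠ 0 := by
    rintro rfl
    rw [zero_pow (by positivity)] at h1
    exact neg_ne_zero.2 one_ne_zero h1.symm
  have h3 : z ^ (q - 1) = -1 := by
    have h4 : z ^ (q - 1) * z = (-1) * z := by
      rw [← pow_succ, Nat.sub_add_cancel hq, h2]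
      ring
    exact mul_right_cancel₀ hz0 h4
  have hord : orderOf z = 2 ^ (s + 1) := by
    apply orderOf_eq_prime_pow
    · rw [h1]
      exact hne
    · rw [pow_succ, pow_mul, h1]
      ring
  -- `2 ^ (s + 1) ∣ 2 (q - 1)`, and not `q - 1`
  have h5 : 2 ^ (s + 1) ∣ 2 * (q - 1) := by
    rw [← hord]
    apply orderOf_dvd_of_pow_eq_one
    rw [mul_comm, pow_mul, h3]
    ring
  have h6 : ¬ 2 ^ (s + 1) ∣ q - 1 := by
    intro h
    rw [← hord] at h
    rw [orderOf_dvd_iff_pow_eq_one.1 h] at h3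
    exact hne h3.symm
  have h7 : 2 ^ s ∣ q - 1 := by
    rw [pow_succ, mul_comm (2 ^ s) 2] at h5
    exact Nat.dvd_of_mul_dvd_mul_left (by norm_num) h5
  obtain ⟨c, hc⟩ := h7
  have hodd : c % 2 = 1 := by
    by_contra h
    have h8 : c % 2 = 0 := by omega
    obtain ⟨e, he⟩ := Nat.dvd_of_mod_eq_zero h8
    apply h6
    refine ⟨e, ?_⟩
    rw [hc, he, pow_succ]
    ring
  unfold TwoExact
  have h9 : q = 2 ^ (s + 1) * (c / 2) + (2 ^ s + 1) := by
    have h10 : c = 2 * (c / 2) + 1 := by omega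
    have h11 : q = 2 ^ s * c + 1 := by omega
    rw [h11]
    conv_lhs => rw [h10]
    rw [pow_succ]
    ring
  have h2s : 2 ≤ 2 ^ s := by
    calc 2 = 2 ^ 1 := by norm_num
      _ ≤ 2 ^ s := Nat.pow_le_pow_right (by norm_num) hs
  rw [h9, Nat.mul_add_mod, Nat.mod_eq_of_lt]
  rw [pow_succ]
  omega

end QS

theorem t_QS (haut : S_AUT) : S_QS := by
  classical
  intro F hF
  have := Pool.Agent.W688.VT.algInst
  set A := AlgebraicClosure ℚ with hA
  have : IsAlgClosure ℚ A := ⟨inferInstance, inferInstance⟩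
  have hN : Normal ℚ A := IsAlgClosure.normal ℚ A
  have hGal : IsGalois ℚ A := ⟨⟩
  -- a root
  have hFQ : (F.map (Int.castRingHom ℚ)).natDegree = F.natDegree :=
    natDegree_map_eq_of_injective (RingHom.injective_int _) F
  obtain ⟨α, hα'⟩ : ∃ α : A, aeval α (F.map (Int.castRingHom ℚ)) = 0 := by
    apply IsAlgClosed.exists_aeval_eq_zero
    intro h
    have h1 : (F.map (Int.castRingHom ℚ)).natDegree = 0 := natDegree_eq_of_degree_eq_some h
    omega
  have hα : aeval α F = 0 := Pool.Agent.TH888.B1.aeval_of_map F _ rfl α hα'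
  have hlc : F.leadingCoeff ≠ 0 := by
    rw [Ne, leadingCoeff_eq_zero]
    rintro rfl
    simp at hF
  obtain ⟨S₀, hS₀⟩ := haut A α
  refine ⟨S₀ + 1, fun s hs => ?_⟩
  have : NeZero ((2 ^ (s + 1) : ℕ) : A) := ⟨by exact_mod_cast (by positivity : (2 ^ (s + 1) : ℕ) ≠ 0)⟩
  obtain ⟨ζ, hζ⟩ := HasEnoughRootsOfUnity.exists_primitiveRoot A (2 ^ (s + 1))
  obtain ⟨κ, hκα, hκζ⟩ := hS₀ s (by omega) ζ hζ
  have hζh : ζ ^ 2 ^ s = -1 := by
    have h1 : (ζ ^ 2 ^ s) ^ 2 = 1 := by
      rw [← pow_mul, ← pow_succ, hζ.pow_eq_one]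
    rcases sq_eq_one_iff.1 h1 with h2 | h2
    · exfalso
      have h3 := Nat.le_of_dvd (by positivity) ((hζ.pow_eq_one_iff_dvd _).1 h2)
      have h4 : 2 ^ s < 2 ^ (s + 1) := Nat.pow_lt_pow_right (by norm_num) (by omega)
      omega
    · exact h2
  obtain ⟨L, hSL, hLN, hdiv⟩ := Pool.Agent.T2H18.PO.frob_lift κ ({α, ζ} : Set A) (by simp)
    (Pool.Agent.W688.VT.exL _ (by simp))
  have hαL : α ∈ L := hSL (by simp)
  have hζL : ζ ∈ L := hSL (by simp)
  have hαg : aeval (⟨α, hαL⟩ : L) F = 0 := by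
    apply Subtype.ext
    have h1 : ((aeval (⟨α, hαL⟩ : L) F : L) : A) = aeval α F := by
      have := (Polynomial.aeval_algebraMap_apply A (⟨α, hαL⟩ : L) F)
      exact this.symm
    rw [h1, hα]
    rfl
  obtain ⟨y, hy⟩ : ∃ y : 𝓞 L, (y : L) = F.leadingCoeff • (⟨α, hαL⟩ : L) :=
    ⟨⟨_, isIntegral_leadingCoeff_smul F _ hαg⟩, rfl⟩
  have hyL : (y : L) = (F.leadingCoeff : L) * (⟨α, hαL⟩ : L) := by
    rw [hy, zsmul_eq_mul]
  obtain ⟨z, hz1, hz2⟩ := QS.mk L ζ hζL (2 ^ s) (-1) (by positivity) (by push_cast; exact hζh)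
  set T0 : Set ℕ := {q : ℕ | (q : ℤ) ∣ F.leadingCoeff} ∪ {2} with hT0
  have hfin : T0.Finite := by
    refine Set.Finite.union ?_ (by simp)
    apply (Set.finite_Icc 0 F.leadingCoeff.natAbs).subset
    intro q hq
    rw [Set.mem_ofPred_eq, Int.natCast_dvd] at hq
    exact ⟨Nat.zero_le _, Nat.le_of_dvd (Int.natAbs_pos.mpr hlc) hq⟩
  refine Pool.Agent.T2H18.PO.big_of_not_summable (Pool.Agent.TH888.B1.diverges_diff hfin hdiv) ?_
  rintro q ⟨⟨hqF, φ, hφ⟩, hql⟩
  rw [hT0, Set.mem_union, Set.mem_singleton_iff] at hql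
  push Not at hql
  obtain ⟨hql, hq2⟩ := hql
  have hq : q.Prime := hqF.out
  have hq3 : 2 < q := lt_of_le_of_ne hq.two_le (Ne.symm hq2)
  have hF3 : Fact (2 < q) := ⟨hq3⟩
  set Fq := AlgebraicClosure (ZMod q) with hFq
  have hne : (-1 : Fq) ≠ 1 := by
    intro h
    have h1 : (-1 : ZMod q) = 1 := by
      apply (algebraMap (ZMod q) Fq).injective
      rw [map_neg, map_one]
      exact h
    exact ZMod.neg_one_ne_one h1
  refine ⟨hq, ?_, ?_⟩
  · -- the exact power of two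
    have hz3 : φ z ^ 2 ^ s = -1 := by
      rw [← map_pow, hz2]
      simp
    have hz4 : φ (-z) = φ z ^ q := hφ z (-z) (by
      push_cast
      rw [hz1, hκζ])
    rw [map_neg] at hz4
    exact QS.twoExact_of hne (by omega) hq.one_lt.le hz3 hz4.symm
  · -- the root
    have h2 : φ y = φ y ^ q := by
      apply hφ y y
      have h3 : ((y : L) : A) = (F.leadingCoeff : A) * α := by
        rw [hyL]
        push_cast
        rfl
      rw [h3, map_mul, map_intCast, hκα]
    obtain ⟨x0, hx0⟩ := W54.ChTor.frob_fixed q (φ y) h2.symm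
    have h4 := Pool.Agent.TH888.B1.root_of_hom φ F _ hαg y F.leadingCoeff hyL hql x0 hx0
    refine ⟨(x0 / (F.leadingCoeff : ZMod q)).val, ?_⟩
    rw [← ZMod.intCast_zmod_eq_zero_iff_dvd, ← eq_intCast (Int.castRingHom (ZMod q)),
      ← Polynomial.eval_natCast_map, ZMod.natCast_zmod_val]
    exact h4

end Pool.Agent.H183.PO
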