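import Pool.Agent.H183.PO.Stm
import Pool.Graph.R_pool_sql_team_seeded_707910d6.T2H18.PO.Gal

/-! Primes which are nonresidues modulo two given primes and modulo which a polynomial has a root
(task RS of project PO). -/

set_option autoImplicit false

namespace Pool.Agent.H183.PO

namespace RS

open Polynomial IntermediateField NumberField Pool.Agent.W401.Cheb Pool.Agent.H771R2.Dens
open Pool.Agent.T2H18.PO

/-- the primes `r` -/
def RT (g : ℤ[X]) (q₁ q₂ : ℕ) : Set ℕ :=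
  {r | r.Prime ∧ (r : ZMod q₁) ^ (q₁ / 2) = -1 ∧ (r : ZMod q₂) ^ (q₂ / 2) = -1 ∧
    ∃ a : ℕ, (r : ℤ) ∣ g.eval (a : ℤ)}

theorem div_RT {g : ℤ[X]} (hg : 0 < g.natDegree) : ∃ K₀ : ℕ, ∀ q₁ q₂ : ℕ, q₁.Prime → q₂.Prime →
    K₀ < q₁ → K₀ < q₂ →
    ¬ Summable (fun n : ℕ => (RT g q₁ q₂).indicator (fun n : ℕ => (1 : ℝ) / n) n) := by
  classical
  have := Pool.Agent.W688.VT.algInst
  set A := AlgebraicClosure ℚ with hA
  have : IsAlgClosure ℚ A := ⟨inferInstance, inferInstance⟩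
  have hN : Normal ℚ A := IsAlgClosure.normal ℚ A
  have hGal : IsGalois ℚ A := ⟨⟩
  -- a root
  have hgQ : (g.map (Int.castRingHom ℚ)).natDegree = g.natDegree :=
    natDegree_map_eq_of_injective (RingHom.injective_int _) g
  obtain ⟨α, hα'⟩ : ∃ α : A, aeval α (g.map (Int.castRingHom ℚ)) = 0 := by
    apply IsAlgClosed.exists_aeval_eq_zero
    intro h
    have h1 : (g.map (Int.castRingHom ℚ)).natDegree = 0 := natDegree_eq_of_degree_eq_some h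
    omega
  have hα : aeval α g = 0 := Pool.Agent.TH888.B1.aeval_of_map g _ rfl α hα'
  have hint : IsIntegral ℚ α := Algebra.IsIntegral.isIntegral α
  have hfd : FiniteDimensional ℚ ℚ⟮α⟯ := IntermediateField.adjoin.finiteDimensional hint
  have hNF : NumberField ℚ⟮α⟯ := ⟨⟩
  obtain ⟨B, hB⟩ := (finite_quad ℚ⟮α⟯).bddAbove
  have hlc : g.leadingCoeff ≠ 0 := by
    rw [Ne, leadingCoeff_eq_zero]
    rintro rfl
    simp at hg
  refine ⟨max B 2, fun q₁ q₂ hq₁ hq₂ hqB₁ hqB₂ => ?_⟩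
  -- one prime
  have one : ∀ q : ℕ, q.Prime → max B 2 < q → ∃ s : A, s ^ 2 = ((qs q : ℤ) : A) ∧
      (∀ σ : Gal(A/ℚ), σ s = s ∨ σ s = -s) ∧ ∃ σ : Gal(A/ℚ), σ α = α ∧ σ s = -s := by
    intro q hq hqB
    have hqB1 : B < q := lt_of_le_of_lt (le_max_left _ _) hqB
    obtain ⟨s, hs⟩ : ∃ s : A, s ^ 2 = ((qs q : ℤ) : A) :=
      IsAlgClosed.exists_pow_nat_eq _ (by norm_num)
    have hsg : ∀ σ : Gal(A/ℚ), σ s = s ∨ σ s = -s := by
      intro σ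
      have h1 : (σ s) ^ 2 = s ^ 2 := by
        rw [← map_pow, hs, map_intCast]
      exact sq_eq_sq_iff_eq_or_eq_neg.1 h1
    have hsK : s ∉ ℚ⟮α⟯ := by
      intro hsK
      have h1 : q ≤ B := by
        apply hB
        refine ⟨hq, ⟨s, hsK⟩, ?_⟩
        apply Subtype.ext
        push_cast
        exact hs
      omega
    obtain ⟨σ, hσ, hσs⟩ : ∃ σ : Gal(A/ℚ), σ ∈ (ℚ⟮α⟯).fixingSubgroup ∧ σ s ≠ s := by
      by_contra hcon
      push Not at hcon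
      apply hsK
      rw [← InfiniteGalois.fixedField_fixingSubgroup ℚ⟮α⟯, IntermediateField.mem_fixedField_iff]
      exact hcon
    have hσα : σ α = α :=
      (IntermediateField.mem_fixingSubgroup_iff _ σ).1 hσ α (mem_adjoin_simple_self ℚ α)
    exact ⟨s, hs, hsg, σ, hσα, (hsg σ).resolve_left hσs⟩
  obtain ⟨s₁, hs₁, hsg₁, σ₁, hσ₁, hσs₁⟩ := one q₁ hq₁ hqB₁
  obtain ⟨s₂, hs₂, hsg₂, σ₂, hσ₂, hσs₂⟩ := one q₂ hq₂ hqB₂
  obtain ⟨σ, hσα, hn₁, hn₂⟩ : ∃ σ : Gal(A/ℚ), σ α = α ∧ σ s₁ = -s₁ ∧ σ s₂ = -s₂ := by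
    rcases hsg₂ σ₁ with h2 | h2
    · rcases hsg₁ σ₂ with h1 | h1
      · refine ⟨σ₁ * σ₂, ?_, ?_, ?_⟩
        · rw [AlgEquiv.mul_apply, hσ₂, hσ₁]
        · rw [AlgEquiv.mul_apply, h1, hσs₁]
        · rw [AlgEquiv.mul_apply, hσs₂, map_neg, h2]
      · exact ⟨σ₂, hσ₂, h1, hσs₂⟩
    · exact ⟨σ₁, hσ₁, hσs₁, h2⟩
  have hq₁2 : 2 < q₁ := lt_of_le_of_lt (le_max_right _ _) hqB₁
  have hq₂2 : 2 < q₂ := lt_of_le_of_lt (le_max_right _ _) hqB₂
  have hqF₁ : Fact q₁.Prime := ⟨hq₁⟩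
  have hqF₂ : Fact q₂.Prime := ⟨hq₂⟩
  obtain ⟨L, hSL, hLN, hLG⟩ := Pool.Agent.W688.VT.exL ({α, s₁, s₂} : Set A) (by simp)
  have hαL : α ∈ L := hSL (by simp)
  have hsL₁ : s₁ ∈ L := hSL (by simp)
  have hsL₂ : s₂ ∈ L := hSL (by simp)
  set τ : Gal(L/ℚ) := σ.restrictNormal L with hτ
  have hτc : ∀ x : L, ((τ x : L) : A) = σ (x : A) := fun x =>
    AlgEquiv.restrictNormal_commutes σ L x
  -- integral elements
  have hαg : aeval (⟨α, hαL⟩ : L) g = 0 := by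
    apply Subtype.ext
    have h1 : ((aeval (⟨α, hαL⟩ : L) g : L) : A) = aeval α g := by
      have := (Polynomial.aeval_algebraMap_apply A (⟨α, hαL⟩ : L) g)
      exact this.symm
    rw [h1, hα]
    rfl
  have hyint : IsIntegral ℤ (g.leadingCoeff • (⟨α, hαL⟩ : L)) :=
    isIntegral_leadingCoeff_smul g _ hαg
  obtain ⟨y, hy⟩ : ∃ y : 𝓞 L, (y : L) = g.leadingCoeff • (⟨α, hαL⟩ : L) := ⟨⟨_, hyint⟩, rfl⟩
  have hyL : (y : L) = (g.leadingCoeff : L) * (⟨α, hαL⟩ : L) := by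
    rw [hy, zsmul_eq_mul]
  have root : ∀ (q : ℕ) (s : A) (hsL : s ∈ L), s ^ 2 = ((qs q : ℤ) : A) → σ s = -s →
      ∃ z : 𝓞 L, z ^ 2 = ((qs q : ℤ) : 𝓞 L) ∧ τ • z = -z := by
    intro q s hsL hs hσs'
    have hs2 : (⟨s, hsL⟩ : L) ^ 2 = ((qs q : ℤ) : L) := by
      apply Subtype.ext
      push_cast
      exact hs
    have hsint : IsIntegral ℤ (⟨s, hsL⟩ : L) := by
      apply IsIntegral.of_pow (n := 2) (by norm_num)
      rw [hs2]
      exact isIntegral_algebraMap (R := ℤ) (x := qs q)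
    obtain ⟨z, hz⟩ : ∃ z : 𝓞 L, (z : L) = (⟨s, hsL⟩ : L) := ⟨⟨_, hsint⟩, rfl⟩
    refine ⟨z, ?_, ?_⟩
    · apply RingOfIntegers.coe_injective
      rw [map_pow, map_intCast]
      change (z : L) ^ 2 = _
      rw [hz, hs2]
    · apply RingOfIntegers.coe_injective
      have h1 : ((τ • z : 𝓞 L) : L) = τ (z : L) := rfl
      rw [map_neg]
      change ((τ • z : 𝓞 L) : L) = -(z : L)
      rw [h1, hz]
      apply Subtype.ext
      rw [hτc]
      push_cast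
      exact hσs'
  obtain ⟨z₁, hz₁, hτz₁⟩ := root q₁ s₁ hsL₁ hs₁ hn₁
  obtain ⟨z₂, hz₂, hτz₂⟩ := root q₂ s₂ hsL₂ hs₂ hn₂
  have hτy : τ • y = y := by
    apply RingOfIntegers.coe_injective
    have h1 : ((τ • y : 𝓞 L) : L) = τ (y : L) := rfl
    change ((τ • y : 𝓞 L) : L) = (y : L)
    rw [h1, hyL]
    apply Subtype.ext
    rw [hτc]
    push_cast
    rw [map_mul, map_intCast, hσα]
  -- divergence
  have h1 := Pool.Agent.TH888.B1.frob_diverges L τ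
  set T0 : Set ℕ := {p : ℕ | (p : ℤ) ∣ g.leadingCoeff} ∪ {2, q₁, q₂} with hT0
  have hfin : T0.Finite := by
    refine Set.Finite.union ?_ (by simp)
    apply (Set.finite_Icc 0 g.leadingCoeff.natAbs).subset
    intro p hp
    rw [Set.mem_ofPred_eq, Int.natCast_dvd] at hp
    exact ⟨Nat.zero_le _, Nat.le_of_dvd (Int.natAbs_pos.mpr hlc) hp⟩
  refine Pool.Agent.TH888.B1.diverges_mono ?_ (Pool.Agent.TH888.B1.diverges_diff hfin h1)
  rintro p ⟨⟨hp, hx⟩, hpl⟩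
  have hpF : Fact p.Prime := ⟨hp⟩
  rw [hT0, Set.mem_union, Set.mem_insert_iff, Set.mem_insert_iff, Set.mem_singleton_iff] at hpl
  push Not at hpl
  obtain ⟨hpl, hp2, hpq₁, hpq₂⟩ := hpl
  obtain ⟨φ, hφ⟩ := Pool.Agent.TH888.B1.exists_hom τ hp hx
  refine ⟨hp, ?_, ?_, ?_⟩
  · refine pow_of_nonres (F := AlgebraicClosure (ZMod p)) hp2 (by omega) hpq₁ (w := φ z₁) ?_ ?_
    · rw [← map_pow, hz₁, map_intCast]
    · rw [← hφ z₁, hτz₁, map_neg]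
  · refine pow_of_nonres (F := AlgebraicClosure (ZMod p)) hp2 (by omega) hpq₂ (w := φ z₂) ?_ ?_
    · rw [← map_pow, hz₂, map_intCast]
    · rw [← hφ z₂, hτz₂, map_neg]
  · have h2 : φ y ^ p = φ y := by
      rw [← hφ y, hτy]
    obtain ⟨x, hx⟩ := W54.ChTor.frob_fixed p (φ y) h2
    have h3 := Pool.Agent.TH888.B1.root_of_hom φ g _ hαg y g.leadingCoeff hyL hpl x hx
    set w : ZMod p := x / (g.leadingCoeff : ZMod p) with hw
    refine ⟨w.val, ?_⟩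
    rw [← ZMod.intCast_zmod_eq_zero_iff_dvd]
    have h4 : ((g.eval ((w.val : ℕ) : ℤ) : ℤ) : ZMod p) =
        (g.map (Int.castRingHom (ZMod p))).eval (((w.val : ℕ) : ℤ) : ZMod p) := by
      rw [Polynomial.eval_intCast_map]
      rfl
    rw [h4]
    push_cast
    rw [ZMod.natCast_zmod_val]
    exact h3

end RS

open Polynomial

theorem t_RS : S_RS := by
  intro g hg
  obtain ⟨K₀, h⟩ := RS.div_RT hg
  exact ⟨K₀, fun q₁ q₂ h₁ h₂ k₁ k₂ => Pool.Agent.T2H18.PO.big_of_not_summable (h q₁ q₂ h₁ h₂ k₁ k₂)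
    fun r hr => ⟨hr.1, hr.2⟩⟩

end Pool.Agent.H183.PO
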