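import Pool.Agent.H183.MU.LIFT
import Pool.Agent.H183.MU.MULT
import Pool.Agent.H183.MU.EVEN
import Pool.Agent.H183.SQ.PAR
import Pool.Agent.H183.SQ.TRANS
import Pool.Agent.H183.SQ.KEYQ
import Pool.Agent.H183.PO.AUT
import Pool.Agent.H183.PO.QS
import Pool.Agent.H183.PO.RS
import Pool.Agent.H183.PO.PER
import Pool.Agent.H183.PO.JOIN
import Pool.Agent.H183.PO.BIGD
import Pool.Agent.H183.PO.NEG
import Pool.Agent.H183.PO.SQP
import Pool.Agent.H183.PO.GAUSS

/-!
# Project PO: the density theorem for squares of polynomials, all hypotheses discharged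
-/

set_option autoImplicit false

namespace Pool.Agent.H183.PO

/-- The density theorem for the orders `g(t) ^ 2`. -/
theorem sqp : S_SQP :=
  t_SQP (Pool.Agent.H183.SQ.t_KEYQ Pool.Agent.H183.SQ.t_PAR
      (Pool.Agent.H183.MU.t_MULT Pool.Agent.H183.MU.t_LIFT) Pool.Agent.H183.SQ.t_TRANS
      Pool.Agent.H183.MU.t_EVEN)
    (t_QS t_AUT) t_RS t_PER t_JOIN t_BIGD t_NEG

end Pool.Agent.H183.PO
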