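import Pool.Agent.H183.PO.Stm
import Pool.Graph.R_pool_sql_team_seeded_707910d6.Results.MP_79499b_co.PolynomialOrders

/-!
# Project PO: orders which are values of a polynomial, assembly
-/

set_option autoImplicit false

namespace Pool.Agent.H183.PO

open Polynomial Filter Topology Pool.Agent.H771R2.Dens Pool.Agent.H183.SQ

/-- planar difference set of order `n` in an abelian group -/
def HasPl (n : ℕ) : Prop :=
  ∃ (G : Type) (_ : CommGroup G) (_ : Fintype G) (_ : DecidableEq G) (D : Finset G),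
    Fintype.card G = n ^ 2 + n + 1 ∧ D.card = n + 1 ∧
    ∀ g : G, g ≠ 1 → ((D ×ˢ D).filter (fun p : G × G => p.1 * p.2⁻¹ = g)).card = 1

theorem hasSq_of_hasPl {n u : ℕ} (hn : n = u ^ 2) (h : HasPl n) : HasSq u 1 := by
  obtain ⟨G, i1, i2, i3, D, h1, h2, h3⟩ := h
  exact ⟨G, i1, i2, i3, D, by rw [h2, hn], h3⟩

theorem singer_of_hasPl {n : ℕ} (hn : 2 ≤ n) (h : HasPl n) :
    Pool.Agent.Results.MP_79499b_co.PolynomialOrders.IsOrder 3 n := by
  obtain ⟨G, i1, i2, i3, D, h1, h2, h3⟩ := h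
  refine ⟨hn, 3, by decide, le_rfl, by norm_num, G, i1.toGroup, i2, i3, D, ?_, ?_, ?_⟩
  · rw [h1]
    obtain ⟨m, rfl⟩ : ∃ m, n = m + 1 := ⟨n - 1, by omega⟩
    rw [Nat.add_sub_cancel]
    have h4 : (m + 1) ^ 3 = ((m + 1) ^ 2 + (m + 1) + 1) * m + 1 := by ring
    rw [h4, Nat.add_sub_cancel]
  · rw [h2]
    obtain ⟨m, rfl⟩ : ∃ m, n = m + 1 := ⟨n - 1, by omega⟩
    rw [Nat.add_sub_cancel]
    have h4 : (m + 1) ^ (3 - 1) = (m + 1 + 1) * m + 1 := by
      show (m + 1) ^ 2 = _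
      ring
    rw [h4, Nat.add_sub_cancel]
  · intro g hg
    rw [h3 g hg]
    show 1 * (n - 1) = n ^ 1 - 1
    rw [pow_one, one_mul]

theorem main (hS : S_SQP) (hG : S_GAUSS) (f : ℤ[X]) (hf : 0 < f.natDegree) :
    Tendsto (fun N : ℕ => ({t : ℕ | t < N ∧ ∃ n : ℕ, 2 ≤ n ∧ f.eval (t : ℤ) = n ∧
      HasPl n}.ncard : ℝ) / N) atTop (𝓝 0) := by
  classical
  by_cases hsq : ∃ g : ℚ[X], f.map (Int.castRingHom ℚ) = g ^ 2
  · obtain ⟨h, rfl⟩ := hG f hsq
    have hh : 0 < h.natDegree := by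
      rw [natDegree_pow] at hf
      omega
    refine squeeze_zero (fun N => by positivity) (fun N => ?_) (hS h hh 1 le_rfl)
    refine div_le_div_of_nonneg_right ?_ (Nat.cast_nonneg N)
    rw [Nat.cast_le, cnt, ← Set.ncard_coe_finset]
    refine Set.ncard_le_ncard ?_ (Finset.finite_toSet _)
    rintro t ⟨ht, n, hn, hfn, hp⟩
    rw [Finset.mem_coe, Finset.mem_filter, Finset.mem_range]
    refine ⟨ht, hasSq_of_hasPl ?_ hp⟩
    rw [eval_pow] at hfn
    have h2 : ((h.eval (t : ℤ)).natAbs : ℤ) ^ 2 = (n : ℤ) := by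
      rw [← hfn, Int.natCast_natAbs, sq_abs]
    exact_mod_cast h2.symm
  · have h1 := (Pool.Agent.Results.MP_79499b_co.PolynomialOrders.result f hf hsq 3).1
    refine squeeze_zero (fun N => by positivity) (fun N => ?_) h1
    refine div_le_div_of_nonneg_right ?_ (Nat.cast_nonneg N)
    rw [Nat.cast_le]
    refine Set.ncard_le_ncard ?_ ((Set.finite_Iio N).subset fun t ht => ht.1)
    rintro t ⟨ht, n, hn, hfn, hp⟩
    exact ⟨ht, n, hfn, singer_of_hasPl hn hp⟩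

end Pool.Agent.H183.PO
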