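import Pool.Agent.H183.SQ.Stm
import Pool.Graph.R_seed8.H771R2.Dens

/-!
# Abelian difference sets whose order is the value of a polynomial: statements

Project PO (helper183), page MP_79499b_co. For EVERY nonconstant polynomial `f` with integral
coefficients and almost all `t` no finite abelian group contains a planar difference set of order `f(t)`.
For `f` not a square this is in the library (`R_pool_sql_team_seeded_707910d6`, `T2H18.PO`, Chebotarev).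
Here `f = g^2`. With `n = u^2`, `u = |g(t)|`, `n + 1 + 1` etc. (`lam = 1`; we treat any `lam`):
`lam v = (u^2 + u + lam) (u^2 - u + lam)`. By `S_KEYQ` (project SQ) there is no abelian difference set if
there are primes `w₁ ∣ g(t)^2 + g(t) + lam`, `w₂ ∣ g(t)^2 - g(t) + lam`, `r ∣ g(t)`, `r > lam`, with
`w₁ w₂ ∣ r^j + 1`. We choose `w₁`, `w₂` with `2^s` dividing `w - 1` exactly, the same `s` for both, and `r`
a nonresidue modulo `w₁` and `w₂`.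

Models: `Pool/Graph/R_pool_sql_team_seeded_707910d6/T2H18/PO/Gal.lean` (`div_R`), `Gal2.lean` (`ex_tau`,
`ex_pow`, `pow_tau`, `frob_lift`, `div_Q`), `Loc.lean` (`per_ex`, `tendsto_zero'`).
-/

set_option autoImplicit false

namespace Pool.Agent.H183.PO

open Polynomial Filter Topology Pool.Agent.H771R2.Dens Pool.Agent.H183.SQ

/-- `2 ^ s` is the exact power of `2` dividing `w - 1`. -/
def TwoExact (s w : ℕ) : Prop := w % 2 ^ (s + 1) = 2 ^ s + 1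

/-- **S_AUT.** An automorphism of the algebraic closure of `ℚ` which fixes `α` and maps a given root of
unity of order `2 ^ (s + 1)` to its negative. Proof. `T2H18.PO.ex_tau` with `k = s + 1`: `τ ζ = ζ ^ 5`;
`T2H18.PO.ex_pow τ α`: `1 ≤ j ≤ d` with `τ ^ j` fixing `α`, `d` the degree of `α`; `S₀ = d + 2`. Write
`j = 2 ^ a b`, `b` odd (`a < 2 ^ a ≤ d`), and let `κ = (τ ^ j) ^ (2 ^ (s - 2 - a))`, a power of `τ ^ j`, so
`κ α = α`, and `κ ζ = ζ ^ (5 ^ (b 2 ^ (s - 2)))` (`T2H18.PO.pow_tau`). As `5 ^ (2 ^ m) ≡ 1 + 2 ^ (m + 2)` modulo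
`2 ^ (m + 3)` (induction) and `b` is odd, the exponent is `≡ 1 + 2 ^ s` modulo `2 ^ (s + 1)`, and
`ζ ^ (2 ^ s) = -1`. -/
def S_AUT : Prop := ∀ (A : Type) [Field A] [CharZero A] [IsAlgClosed A] [Algebra.IsAlgebraic ℚ A]
  (α : A), ∃ S₀ : ℕ, ∀ s : ℕ, S₀ ≤ s → ∀ ζ : A, IsPrimitiveRoot ζ (2 ^ (s + 1)) →
    ∃ κ : Gal(A/ℚ), κ α = α ∧ κ ζ = -ζ

/-- **S_QS** (from S_AUT). Primes `q` with `2 ^ s` exactly dividing `q - 1` modulo which `F` has a root: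
the sum of `1/q` diverges. Proof as for `T2H18.PO.div_Q` (file `Gal2.lean`): `α` a root of `F` in
`A = AlgebraicClosure ℚ`, `ζ` a primitive root of unity of order `2 ^ (s + 1)`, `κ` of S_AUT; `frob_lift κ`
with the set `{α, ζ}` (`-ζ` is then in `L` too). For the primes `q` there (`q ≠ 2`, `q` does not divide the
leading coefficient of `F`) `F` has a root modulo `q` as in `div_Q`, and `z = φ(ζ)` satisfies `z ^ q = -z`,
`z ^ (2 ^ s) = -1`, so `z ^ (q-1) = -1 = z ^ (2 ^ s)`, `z` has the order `2 ^ (s + 1)`, and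
`q - 1 ≡ 2 ^ s` modulo `2 ^ (s + 1)`. Take `S₀ ≥ 1`. Finally `T2H18.PO.big_of_not_summable`. -/
def S_QS : Prop := ∀ F : ℤ[X], 0 < F.natDegree → ∃ S₀ : ℕ, ∀ s : ℕ, S₀ ≤ s →
  Big (fun q : ℕ => TwoExact s q ∧ ∃ a : ℕ, (q : ℤ) ∣ F.eval (a : ℤ))

/-- **S_RS.** Primes `r` which are nonresidues modulo two given primes and modulo which `g` has a root.
Proof as for `T2H18.PO.div_R` (file `Gal.lean`) with two square roots: `s₁^2 = qs q₁`, `s₂^2 = qs q₂`, both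
not in `ℚ⟮α⟯` (`finite_quad`). So there are `σ₁`, `σ₂` fixing `α` with `σ₁ s₁ = -s₁`, `σ₂ s₂ = -s₂`. If
`σ₁ s₂ = -s₂` take `σ = σ₁`; if `σ₂ s₁ = -s₁` take `σ = σ₂`; otherwise `σ₁ s₂ = s₂`, `σ₂ s₁ = s₁` and
`σ = σ₁ σ₂`. In all cases `σ` fixes `α` and negates `s₁` and `s₂`. The rest is as in `div_R` (with
`Pool.Agent.W688.VT.exL ({α, s₁, s₂})`, `pow_of_nonres` twice; exclude also `r = q₁, q₂`). -/
def S_RS : Prop := ∀ g : ℤ[X], 0 < g.natDegree → ∃ K₀ : ℕ, ∀ q₁ q₂ : ℕ, q₁.Prime → q₂.Prime →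
  K₀ < q₁ → K₀ < q₂ → Big (fun r : ℕ => (r : ZMod q₁) ^ (q₁ / 2) = -1 ∧
    (r : ZMod q₂) ^ (q₂ / 2) = -1 ∧ ∃ a : ℕ, (r : ℤ) ∣ g.eval (a : ℤ))

/-- **S_PER.** Proof. The condition has period `r`, so also `r^2` (`g(t + r^2) ≡ g(t)` modulo `r`,
`T2H18.PO.eval_mod` or `Polynomial.sub_dvd_eval_sub`). There is `a < r` with `r ∣ g(a)`; the `r` numbers
`a + r i < r^2` do not count, so the count is at most `r^2 - r = (1 - 1/r) r^2 ≤ exp (-1/(2 r)) r^2`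
(`Real.add_one_le_exp`). -/
def S_PER : Prop := ∀ (g : ℤ[X]) (r : ℕ), r.Prime → (∃ a : ℕ, (r : ℤ) ∣ g.eval (a : ℤ)) →
  Per (fun t : ℕ => ¬ (r : ℤ) ∣ g.eval (t : ℤ)) (r ^ 2) (Real.exp (-(1 / (2 * (r : ℝ)))))

/-- **S_JOIN.** Proof: the first half of the proof of `T2H18.PO.tendsto_zero'` (file `Loc.lean`): a finite
set `F` of such primes with `∏ exp (-1/q) ≤ ε/4` (`exists_exp_small`); the `n` with `n % q ≠ c q % q` for all
`q ∈ F` are periodic of density `≤ ε/4` (`Per.forall`, `per_ne`), the others with `S n` are in the union over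
`q ∈ F` of sets of density zero. -/
def S_JOIN : Prop := ∀ (S Q : ℕ → Prop) (c : ℕ → ℕ), Big Q →
  (∀ q : ℕ, q.Prime → Q q →
    Tendsto (fun N : ℕ => (cnt (fun n => S n ∧ n % q = c q % q) N : ℝ) / N) atTop (𝓝 0)) →
  Tendsto (fun N : ℕ => (cnt S N : ℝ) / N) atTop (𝓝 0)

/-- **S_BIGD.** Proof: remove the primes `≤ B`; the sum of their reciprocals is at most `B + 1`. -/
def S_BIGD : Prop := ∀ (P : ℕ → Prop) (B : ℕ), Big P → Big (fun q : ℕ => P q ∧ B < q)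

/-- **S_NEG.** Proof. `w_i = 1 + 2 ^ s o_i`, `o_i` odd, `w_i / 2 = 2 ^ (s-1) o_i`. With `j = 2 ^ (s-1) o₁ o₂`:
`p ^ j = (-1) ^ (o₂) = -1` modulo `w₁` and `(-1) ^ (o₁) = -1` modulo `w₂`. -/
def S_NEG : Prop := ∀ p w₁ w₂ s : ℕ, w₁.Prime → w₂.Prime → w₁ ≠ w₂ → 1 ≤ s → TwoExact s w₁ →
  TwoExact s w₂ → (p : ZMod w₁) ^ (w₁ / 2) = -1 → (p : ZMod w₂) ^ (w₂ / 2) = -1 →
    ∃ j : ℕ, w₁ * w₂ ∣ p ^ j + 1

/-- **S_SQP** (from S_QS, S_RS, S_PER, S_JOIN, S_BIGD, S_NEG and `t_KEYQ` of project SQ). Proof.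
`F₁ = g^2 + g + lam`, `F₂ = g^2 - g + lam` have positive degree; `s ≥ 1` large for both in S_QS. Let
`Q₁ q`: `TwoExact s q`, `F₁` has a root `c₁ q` modulo `q`, `q > K := max K₀ lam 3` (`K₀` of S_RS), and `Q₂` for
`F₂`, both `Big`. S_JOIN with `Q₁`: let `q₁` be given and `S₁ t := HasSq |g(t)| lam ∧ t % q₁ = c₁ q₁ % q₁`.
`T2H18.PO.tendsto_zero'` with `Q q := Q₂ q ∧ q₁ < q`, `c = c₂`,
`R q r := lam < r` and the condition of S_RS for `q₁, q`, `E r t := (r : ℤ) ∣ g.eval t` (S_PER): if `S₁ t`,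
`t ≡ c₂` modulo `q₂` and `r ∣ g(t)` then with `u = |g(t)|`: `u ≥ 1` (else `q₁ ∣ lam`), `q₁ ∤ u`,
`q₂ ∤ u`. S_NEG gives `j` for `r`. If `g(t) > 0` use S_KEYQ with `(w₁, w₂) = (q₁, q₂)`, if `g(t) < 0`
with `(w₁, w₂) = (q₂, q₁)` (then `F₁(t) = u^2 - u + lam`, `F₂(t) = u^2 + u + lam`). -/
def S_SQP : Prop := ∀ g : ℤ[X], 0 < g.natDegree → ∀ lam : ℕ, 1 ≤ lam →
  Tendsto (fun N : ℕ => (cnt (fun t : ℕ => HasSq (g.eval (t : ℤ)).natAbs lam) N : ℝ) / N) atTop (𝓝 0)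

/-- **S_GAUSS.** Proof. Let `d g = G` with `G ∈ ℤ[X]`, `d ≥ 1` (`IsLocalization.integerNormalization` or
`Polynomial` common denominators). Then `d^2 f = G^2`; the contents: `d^2 ∣ content (G^2) =
(content G)^2` (Gauss), so `d ∣ content G`, `G = d h`, `f = h^2`. (Or: `ℤ[X]` is integrally closed in
`ℚ[X]`/a UFD.) -/
def S_GAUSS : Prop := ∀ f : ℤ[X], (∃ g : ℚ[X], f.map (Int.castRingHom ℚ) = g ^ 2) →
  ∃ h : ℤ[X], f = h ^ 2

end Pool.Agent.H183.PO
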